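import Mathlib
import Pool.Agent.Lib.helper9.AffTwo

set_option autoImplicit false

namespace Pool.Agent.Results.MP_c68965_al.Three

open Pool.Agent.Lib.helper9.AffTwo

theorem result : ∀ k : ℕ, ∃ (G : Type) (_ : Group G) (_ : Finite G), Nontrivial G ∧ Group.IsSolvable G ∧
    k ≤ (Nat.card G).primeFactors.card ∧
    ∃ M : Fin 3 → Subgroup G, (∀ i, IsCoatom (M i)) ∧
      (∀ i j, i ≠ j → ∀ g : G, (M i).map (MulAut.conj g).toMonoidHom ≠ M j) ∧
      ⨅ i, M i = frattini G := by
  intro k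
  obtain ⟨s, hs, hcard⟩ := Nat.infinite_setOfPred_prime.exists_subset_card_eq k
  have hN : ∏ q ∈ s, q ≠ 0 := Finset.prod_ne_zero_iff.2 fun q hq => (hs hq).ne_zero
  obtain ⟨p, hp, -, hmod⟩ := Nat.exists_prime_gt_modEq_one (k := ∏ q ∈ s, q) 0 hN
  have : Fact p.Prime := ⟨hp⟩
  have hc : Nat.card (Aff (ZMod p)) = p * (p * (p - 1)) := by
    rw [Nat.card_congr equivProd]
    simp [Nat.totient_prime hp]
  refine ⟨Aff (ZMod p), inferInstance, inferInstance, ⟨⟨⟨1, 0, 1⟩, 1, fun h => ?_⟩⟩, inferInstance,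
    ?_, ![M 1 0 0, M 0 1 0, M 1 1 1], ?_, ?_, ?_⟩
  · simpa using congrArg Aff.x h
  · rw [← hcard]
    apply Finset.card_le_card
    intro q hq
    rw [Nat.mem_primeFactors]
    refine ⟨hs hq, ?_, Nat.card_pos.ne'⟩
    rw [hc]
    have h1 : ∏ q ∈ s, q ∣ p - 1 := (Nat.modEq_iff_dvd' hp.one_le).1 hmod.symm
    exact Dvd.dvd.mul_left (Dvd.dvd.mul_left ((Finset.dvd_prod_of_mem _ hq).trans h1) _) _
  · intro i
    fin_cases i <;> apply coatom <;> simp
  · intro i j hij g
    fin_cases i <;> fin_cases j <;> first | exact absurd rfl hij | (apply inconj; simp)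
  · have h : ⨅ i, (![M 1 0 0, M 0 1 0, M 1 1 1] : Fin 3 → Subgroup (Aff (ZMod p))) i = ⊥ := by
      rw [eq_bot_iff]
      intro g hg
      rw [Subgroup.mem_iInf] at hg
      have h0 : f 1 0 0 g = 0 := hg 0
      have h1 : f 0 1 0 g = 0 := hg 1
      have h2 : f 1 1 1 g = 0 := hg 2
      simp only [f, one_mul, zero_mul, mul_zero, add_zero, zero_add, mul_one] at h0 h1 h2
      rw [h0, h1] at h2
      rw [Subgroup.mem_bot]
      ext
      · exact h0
      · exact h1
      · simpa [sub_eq_zero] using h2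
    apply le_antisymm
    · rw [h]; exact bot_le
    · apply le_iInf
      intro i
      apply frattini_le_coatom
      fin_cases i <;> apply coatom <;> simp

end Pool.Agent.Results.MP_c68965_al.Three
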